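import Pool.Agent.N343.AM.Stm

/-!
# Bad windows of a pseudo-orbit (leaf PSO of project AM of helper343)
-/

set_option autoImplicit false

open Filter Topology Finset

namespace Pool.Agent.N187.AM.PSO

open Pool.Agent.N343.AM

theorem tele (x : ℕ → ℕ → Bool) (i j : ℕ)
    (h : ∀ t < j, x (i + t) (j - t) = x (i + t + 1) (j - t - 1)) :
    ∀ s ≤ j, x i j = x (i + s) (j - s) := by
  intro s
  induction s with
  | zero => intro _; simp
  | succ s ih =>
    intro hs
    rw [ih (by omega), h s (by omega)]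
    congr 1

theorem bad (hD : S_DIS) (L : ℕ) (F : Set Wd) (x : ℕ → ℕ → Bool)
    (hF : ∀ i, win (x i) 0 L ∈ F) (i : ℕ) (hi : win (fun i => x i 0) i L ∉ F) :
    (1 : ℝ) ≤ 2 ^ L * ∑ t ∈ range L, dd (sg (x (i + t))) (x (i + t + 1)) := by
  have h1 : ∃ j < L, x (i + j) 0 ≠ x i j := by
    by_contra hcon
    push Not at hcon
    apply hi
    have h2 : win (fun i => x i 0) i L = win (x i) 0 L := by
      unfold win
      apply List.map_congr_left
      intro j hj
      rw [List.mem_range] at hj
      simp only [zero_add]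
      exact hcon j hj
    rw [h2]
    exact hF i
  obtain ⟨j, hj, hne⟩ := h1
  have h3 : ∃ t < j, x (i + t) (j - t) ≠ x (i + t + 1) (j - t - 1) := by
    by_contra hcon
    push Not at hcon
    have := tele x i j hcon j le_rfl
    rw [Nat.sub_self] at this
    exact hne this.symm
  obtain ⟨t, ht, hne2⟩ := h3
  have h4 : sg (x (i + t)) (j - t - 1) ≠ x (i + t + 1) (j - t - 1) := by
    unfold sg
    have e : j - t - 1 + 1 = j - t := by omega
    rw [e]
    exact hne2
  have h5 := hD.1 _ _ _ h4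
  have h6 : (1 / 2 : ℝ) ^ L ≤ (1 / 2) ^ (j - t - 1) :=
    pow_le_pow_of_le_one (by norm_num) (by norm_num) (by omega)
  have h7 : dd (sg (x (i + t))) (x (i + t + 1)) ≤
      ∑ t ∈ range L, dd (sg (x (i + t))) (x (i + t + 1)) :=
    single_le_sum (f := fun t => dd (sg (x (i + t))) (x (i + t + 1)))
      (fun t _ => (hD.2.2 _ _).1) (mem_range.2 (by omega))
  calc (1 : ℝ) = 2 ^ L * (1 / 2) ^ L := by
        rw [← mul_pow]; norm_num
    _ ≤ 2 ^ L * ∑ t ∈ range L, dd (sg (x (i + t))) (x (i + t + 1)) :=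
        mul_le_mul_of_nonneg_left (h6.trans (h5.trans h7)) (by positivity)

theorem main (hD : S_DIS) : S_PSO := by
  classical
  intro L F x hF n
  have hd : ∀ i, 0 ≤ dd (sg (x i)) (x (i + 1)) := fun i => (hD.2.2 _ _).1
  have h1 : (badc F (fun i => x i 0) L n : ℝ) ≤
      ∑ i ∈ range n, 2 ^ L * ∑ t ∈ range L, dd (sg (x (i + t))) (x (i + t + 1)) := by
    have e : badc F (fun i => x i 0) L n =
        ((range n).filter (fun i => win (fun i => x i 0) i L ∉ F)).card := by
      unfold badc
      congr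
    rw [e, card_eq_sum_ones, Nat.cast_sum, sum_filter]
    refine sum_le_sum fun i _ => ?_
    by_cases h : win (fun i => x i 0) i L ∉ F
    · rw [if_pos h]
      simpa using bad hD L F x hF i h
    · rw [if_neg h]
      exact mul_nonneg (by positivity) (sum_nonneg fun t _ => hd _)
  refine h1.trans ?_
  rw [← mul_sum, sum_comm, mul_assoc]
  refine mul_le_mul_of_nonneg_left ?_ (by positivity)
  have h2 : ∀ t ∈ range L, ∑ i ∈ range n, dd (sg (x (i + t))) (x (i + t + 1)) ≤
      ∑ i ∈ range (n + L), dd (sg (x i)) (x (i + 1)) := by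
    intro t ht
    rw [mem_range] at ht
    have h3 : ∑ i ∈ range (t + n), dd (sg (x i)) (x (i + 1)) =
        ∑ i ∈ range t, dd (sg (x i)) (x (i + 1)) +
          ∑ i ∈ range n, dd (sg (x (t + i))) (x (t + i + 1)) :=
      sum_range_add _ _ _
    have h4 : ∑ i ∈ range n, dd (sg (x (i + t))) (x (i + t + 1)) =
        ∑ i ∈ range n, dd (sg (x (t + i))) (x (t + i + 1)) := by
      refine sum_congr rfl fun i _ => ?_
      rw [add_comm i t]
    have h5 : 0 ≤ ∑ i ∈ range t, dd (sg (x i)) (x (i + 1)) := sum_nonneg fun i _ => hd i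
    have h6 : ∑ i ∈ range (t + n), dd (sg (x i)) (x (i + 1)) ≤
        ∑ i ∈ range (n + L), dd (sg (x i)) (x (i + 1)) :=
      sum_le_sum_of_subset_of_nonneg (range_mono (by omega)) (fun i _ _ => hd i)
    linarith
  refine (sum_le_sum h2).trans ?_
  rw [sum_const, card_range, nsmul_eq_mul]

end Pool.Agent.N187.AM.PSO
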